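import Pool.Agent.H24.LV.TargetsE

/-!
# Power saving above the square root barrier: assembly (helper24)
-/

set_option autoImplicit false

open Finset MeasureTheory

namespace Pool.Agent.H24.LVP

open Pool.Agent.H24.CL Pool.Agent.H24.LV

theorem KN_two (k : ℕ) : 2 * (KN k : ℝ) = (k : ℝ) * ((k : ℝ) + 1) := by
  have h2 : 2 * KN k = k * (k + 1) := by
    unfold KN
    exact Nat.mul_div_cancel' (Nat.even_mul_succ_self k).two_dvd
  exact_mod_cast h2

/-- constants are absorbed by small powers -/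
theorem absorb (C a : ℝ) (ha : 0 < a) : ∃ M₀ : ℝ, 1 ≤ M₀ ∧ ∀ M : ℝ, M₀ ≤ M → C ≤ M ^ a := by
  have h1 : Filter.Tendsto (fun x : ℝ => x ^ a) Filter.atTop Filter.atTop := tendsto_rpow_atTop ha
  obtain ⟨M₀, h⟩ := Filter.eventually_atTop.1 (h1.eventually_ge_atTop C)
  exact ⟨max M₀ 1, le_max_right _ _, fun M hM => h M ((le_max_left _ _).trans hM)⟩

theorem two_cube (M : ℝ) (h : 2 ≤ M) : 2 * M ≤ M ^ 3 := by
  nlinarith [mul_nonneg (show (0 : ℝ) ≤ M by linarith) (show (0 : ℝ) ≤ M by linarith)]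

theorem final_exp (g K s σ : ℝ) (hg : g = K - s) (hσ : 0 ≤ σ) (hK : 1 ≤ K) (hs : s ≤ K)
    (h : σ * (16 * K) ≤ g) : g / 16 + g / 8 + (1 + 2 * σ) * s ≤ K - σ := by
  have e2 : σ * s ≤ σ * K := mul_le_mul_of_nonneg_left hs hσ
  have e3 : σ ≤ σ * K := le_mul_of_one_le_right hσ hK
  have e4 : (1 + 2 * σ) * s = s + 2 * (σ * s) := by ring
  have e5 : 16 * (σ * K) ≤ g := by linarith
  rw [e4]
  linarith

theorem volR_mono {k : ℕ} {A B : Set (X k)} (h : A ⊆ B) : volume.real A ≤ volume.real B :=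
  measureReal_mono h

theorem pf_FIN (hWT : L_WT) (hSR : L_SR) (hWE : E_WE) (hDW : E_DW) (hME : E_ME) : E_FI := by
  intro k hk δ hδ
  obtain ⟨CW, hCW, hW⟩ := hWT k hk
  obtain ⟨C₄, CR, MD, hC4, hCR, hMD, hD⟩ := hDW k hk
  obtain ⟨δ', hδ'⟩ : ∃ δ' : ℝ, δ' = min δ 1 := ⟨_, rfl⟩
  have hδ'0 : 0 < δ' := by rw [hδ']; exact lt_min hδ one_pos
  have hδ'1 : δ' ≤ 1 := by rw [hδ']; exact min_le_right _ _
  have hδ'δ : δ' ≤ δ := by rw [hδ']; exact min_le_left _ _
  obtain ⟨C₃, CR', σ₀, hC3, hCR', hσ0, hE⟩ := hWE k hk δ' C₄ hδ'0 hδ'1 hC4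
  have hk3 : (3 : ℝ) ≤ k := by exact_mod_cast hk
  have hK2 := KN_two k
  obtain ⟨K, hK⟩ : ∃ K : ℝ, K = (KN k : ℝ) := ⟨_, rfl⟩
  rw [← hK] at hK2
  have hK6 : 6 ≤ K := by nlinarith
  obtain ⟨s, hs⟩ : ∃ s : ℝ, s = ((k : ℝ) ^ 2 / 2 + 1 + K) / 2 := ⟨_, rfl⟩
  have hgap : (k : ℝ) ^ 2 / 2 + 1 < K := by nlinarith
  have hs1 : (k : ℝ) ^ 2 / 2 + 1 < s := by rw [hs]; linarith
  have hs2 : s < K := by rw [hs]; linarith
  have hs0 : 0 < s := by nlinarith [sq_nonneg (k : ℝ)]
  obtain ⟨g, hg⟩ : ∃ g : ℝ, g = K - s := ⟨_, rfl⟩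
  have hg0 : 0 < g := by rw [hg]; linarith
  obtain ⟨σ, hσ⟩ : ∃ σ : ℝ, σ = min σ₀ (min (g / (16 * K)) (δ' / 32)) := ⟨_, rfl⟩
  have hσpos : 0 < σ := by
    rw [hσ]
    exact lt_min hσ0 (lt_min (by positivity) (by positivity))
  have hσσ : σ ≤ σ₀ := by rw [hσ]; exact min_le_left _ _
  have hσg : σ * (16 * K) ≤ g := by
    have h1 : σ ≤ g / (16 * K) := by
      rw [hσ]; exact (min_le_right _ _).trans (min_le_left _ _)
    rwa [le_div_iff₀ (by positivity)] at h1
  have hσδ : σ ≤ δ' / 32 := by rw [hσ]; exact (min_le_right _ _).trans (min_le_right _ _)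
  obtain ⟨B, hB⟩ : ∃ B : ℝ, B = max CR CR' + 3 := ⟨_, rfl⟩
  have hBR : CR + 3 ≤ B := by
    rw [hB]
    linarith [le_max_left CR CR']
  have hBR' : CR' + 3 ≤ B := by
    rw [hB]
    linarith [le_max_right CR CR']
  have hB1 : 1 ≤ B := by linarith
  obtain ⟨ε, hε⟩ : ∃ ε : ℝ, ε = min (g / (8 * B)) (δ' / (16 * B)) := ⟨_, rfl⟩
  have hεpos : 0 < ε := by rw [hε]; exact lt_min (by positivity) (by positivity)
  have hεg : ε * B ≤ g / 8 := by
    have h1 : ε ≤ g / (8 * B) := by rw [hε]; exact min_le_left _ _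
    calc ε * B ≤ g / (8 * B) * B := mul_le_mul_of_nonneg_right h1 (by linarith)
      _ = g / 8 := by field_simp
  have hεδ : ε * B ≤ δ' / 16 := by
    have h1 : ε ≤ δ' / (16 * B) := by rw [hε]; exact min_le_right _ _
    calc ε * B ≤ δ' / (16 * B) * B := mul_le_mul_of_nonneg_right h1 (by linarith)
      _ = δ' / 16 := by field_simp
  obtain ⟨CM, hCM, hM⟩ := hME k hk s ε hs1 (by rw [← hK]; exact hs2) hεpos
  obtain ⟨ME, hME1, hE2⟩ := hE σ hσpos hσσ
  obtain ⟨η, MS, hη, hMS1, hS⟩ := hSR k hk δ' C₄ C₃ σ hδ'0 hδ'1 hC4 hC3 hσpos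
  obtain ⟨Ma, hMa1, hMa⟩ := absorb (CM + 1) (g / 16) (by positivity)
  obtain ⟨Mb, hMb1, hMb⟩ := absorb (CM + 1) (δ' / 16) (by positivity)
  obtain ⟨Mc, hMc1, hMc⟩ := absorb (CM * 2 ^ s + 1) (g / 4) (by positivity)
  obtain ⟨Md, hMd1, hMd⟩ := absorb (2 * CM + 1) (δ' / 16) (by positivity)
  obtain ⟨c, hc⟩ : ∃ c : ℝ, c = min η (g / 4) := ⟨_, rfl⟩
  have hc0 : 0 < c := by rw [hc]; exact lt_min hη (by positivity)
  have hcη : c ≤ η := by rw [hc]; exact min_le_left _ _
  have hcg : c ≤ g / 4 := by rw [hc]; exact min_le_right _ _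
  obtain ⟨M₀, hM₀⟩ : ∃ M₀ : ℝ, M₀ = MD + ME + MS + Ma + Mb + Mc + Md + 1 := ⟨_, rfl⟩
  have hM₀1 : 1 ≤ M₀ := by rw [hM₀]; linarith
  refine ⟨c, CW * M₀ ^ c + 1, hc0, ?_⟩
  intro M N hM1 hMN
  have hM0 : 0 < M := by linarith
  have hN1' : (1 : ℝ) ≤ N := by
    refine le_trans ?_ hMN
    exact Real.one_le_rpow hM1 (by linarith)
  have hN1 : 1 ≤ N := by exact_mod_cast hN1'
  have hN0 : (0 : ℝ) < N := by linarith
  rw [← hK]
  have hMK : 0 < M ^ (K - c) := Real.rpow_pos_of_pos hM0 _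
  rcases lt_or_ge M M₀ with hsmall | hbig
  · -- small M
    have h1 := hW N (M ^ (-(1 / 2 : ℝ))) hN1 (Real.rpow_pos_of_pos hM0 _)
    have h2 : (M ^ (-(1 / 2 : ℝ))) ^ (2 * KN k) = M ^ (-K) := by
      rw [← Real.rpow_natCast, ← Real.rpow_mul hM0.le]
      congr 1
      push_cast
      rw [← hK]
      ring
    rw [h2] at h1
    have h3 : (N : ℝ) ^ (KN k) * volume.real {a : X k | M ^ (-(1 / 2 : ℝ)) ≤ ‖u N a‖} ≤
        CW * M ^ K := by
      have h4 : M ^ (-K) * M ^ K = 1 := by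
        rw [← Real.rpow_add hM0]; simp
      have h5 : 0 < M ^ K := Real.rpow_pos_of_pos hM0 _
      calc (N : ℝ) ^ (KN k) * volume.real {a : X k | M ^ (-(1 / 2 : ℝ)) ≤ ‖u N a‖}
          = ((N : ℝ) ^ (KN k) * M ^ (-K) *
              volume.real {a : X k | M ^ (-(1 / 2 : ℝ)) ≤ ‖u N a‖}) * M ^ K := by
            have : (N : ℝ) ^ (KN k) * M ^ (-K) *
              volume.real {a : X k | M ^ (-(1 / 2 : ℝ)) ≤ ‖u N a‖} * M ^ K =
              (N : ℝ) ^ (KN k) * volume.real {a : X k | M ^ (-(1 / 2 : ℝ)) ≤ ‖u N a‖} *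
                (M ^ (-K) * M ^ K) := by ring
            rw [this, h4, mul_one]
        _ ≤ CW * M ^ K := mul_le_mul_of_nonneg_right h1 h5.le
    have h6 : M ^ K = M ^ c * M ^ (K - c) := by
      rw [← Real.rpow_add hM0]; congr 1; ring
    have h7 : M ^ c ≤ M₀ ^ c := Real.rpow_le_rpow hM0.le hsmall.le hc0.le
    calc (N : ℝ) ^ (KN k) * volume.real {a : X k | M ^ (-(1 / 2 : ℝ)) ≤ ‖u N a‖}
        ≤ CW * M ^ K := h3
      _ = (CW * M ^ c) * M ^ (K - c) := by rw [h6]; ring
      _ ≤ (CW * M₀ ^ c + 1) * M ^ (K - c) := by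
          apply mul_le_mul_of_nonneg_right _ hMK.le
          have : CW * M ^ c ≤ CW * M₀ ^ c := mul_le_mul_of_nonneg_left h7 (by linarith)
          linarith
  · -- large M
    have hpos : 0 ≤ CW * M₀ ^ c := by positivity
    have key : (N : ℝ) ^ (KN k) * volume.real {a : X k | M ^ (-(1 / 2 : ℝ)) ≤ ‖u N a‖} ≤
        M ^ (K - c) := by
      have hMge1 : 1 ≤ M := hM1
      rcases le_or_gt (M ^ C₄) N with hlong | hshort
      · -- direct case
        have hsub : {a : X k | M ^ (-(1 / 2 : ℝ)) ≤ ‖u N a‖} ⊆ WS k N (M ^ CR) (2 * M) := by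
          intro w hw
          exact hD M N w (by linarith) hlong hw
        have hR1 : 1 ≤ M ^ CR := Real.one_le_rpow hM1 (by linarith)
        have hM2 : 2 ≤ M := by linarith
        have hRe : (M ^ CR) ^ ε ≤ M ^ (ε * B) := by
          rw [← Real.rpow_mul hM0.le]
          apply Real.rpow_le_rpow_of_exponent_le hM1
          calc CR * ε ≤ B * ε := mul_le_mul_of_nonneg_right (by linarith) hεpos.le
            _ = ε * B := mul_comm _ _
        have hRe2 : (M ^ CR * (2 * M)) ^ ε ≤ M ^ (ε * B) := by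
          have h1 : M ^ CR * (2 * M) ≤ M ^ (CR + 3) := by
            rw [Real.rpow_add hM0]
            apply mul_le_mul_of_nonneg_left _ (by positivity)
            have h2 : M ^ (3 : ℝ) = M ^ 3 := by norm_cast
            rw [h2]
            exact two_cube M hM2
          calc (M ^ CR * (2 * M)) ^ ε ≤ (M ^ (CR + 3)) ^ ε :=
                Real.rpow_le_rpow (by positivity) h1 hεpos.le
            _ = M ^ ((CR + 3) * ε) := by rw [← Real.rpow_mul hM0.le]
            _ ≤ M ^ (ε * B) := by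
                apply Real.rpow_le_rpow_of_exponent_le hM1
                rw [mul_comm ε B]
                exact mul_le_mul_of_nonneg_right hBR hεpos.le
        have hcond : CM * (M ^ CR * (2 * M)) ^ ε * (2 * M) ≤ N := by
          have h1 : 2 * CM + 1 ≤ M ^ (δ' / 16) := hMd M (by linarith)
          have h2 : (M ^ CR * (2 * M)) ^ ε ≤ M ^ (δ' / 16) :=
            hRe2.trans (Real.rpow_le_rpow_of_exponent_le hM1 hεδ)
          have h3 : M ^ (δ' / 16) * M ^ (δ' / 16) * M ≤ M ^ (1 + δ) := by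
            have : M ^ (δ' / 16) * M ^ (δ' / 16) * M = M ^ (δ' / 16 + δ' / 16 + 1) := by
              rw [Real.rpow_add hM0, Real.rpow_add hM0, Real.rpow_one]
            rw [this]
            exact Real.rpow_le_rpow_of_exponent_le hM1 (by linarith)
          have hp : 0 < (M ^ CR * (2 * M)) ^ ε := by positivity
          calc CM * (M ^ CR * (2 * M)) ^ ε * (2 * M) = (2 * CM) * (M ^ CR * (2 * M)) ^ ε * M := by
                ring
            _ ≤ M ^ (δ' / 16) * M ^ (δ' / 16) * M := by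
                apply mul_le_mul_of_nonneg_right _ hM0.le
                exact mul_le_mul (by linarith) h2 hp.le (by positivity)
            _ ≤ N := h3.trans hMN
        have h1 := hM N (M ^ CR) (2 * M) hN1 hR1 (by linarith) hcond
        calc (N : ℝ) ^ (KN k) * volume.real {a : X k | M ^ (-(1 / 2 : ℝ)) ≤ ‖u N a‖}
            ≤ (N : ℝ) ^ (KN k) * volume.real (WS k N (M ^ CR) (2 * M)) :=
              mul_le_mul_of_nonneg_left (volR_mono hsub) (by positivity)
          _ ≤ CM * (M ^ CR) ^ ε * (2 * M) ^ s := h1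
          _ ≤ M ^ (K - c) := by
              have h2 : CM * 2 ^ s + 1 ≤ M ^ (g / 4) := hMc M (by linarith)
              have h3 : (M ^ CR) ^ ε ≤ M ^ (g / 8) :=
                hRe.trans (Real.rpow_le_rpow_of_exponent_le hM1 hεg)
              have h4 : (2 * M) ^ s = 2 ^ s * M ^ s := Real.mul_rpow (by norm_num) hM0.le
              have hp : 0 < (M ^ CR) ^ ε := by positivity
              calc CM * (M ^ CR) ^ ε * (2 * M) ^ s
                  = (CM * 2 ^ s) * (M ^ CR) ^ ε * M ^ s := by rw [h4]; ring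
                _ ≤ M ^ (g / 4) * M ^ (g / 8) * M ^ s := by
                    apply mul_le_mul_of_nonneg_right _ (by positivity)
                    exact mul_le_mul (by linarith) h3 hp.le (by positivity)
                _ = M ^ (g / 4 + g / 8 + s) := by
                    rw [Real.rpow_add hM0, Real.rpow_add hM0]
                _ ≤ M ^ (K - c) := by
                    apply Real.rpow_le_rpow_of_exponent_le hM1
                    have : s = K - g := by rw [hg]; ring
                    rw [this]; linarith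
      · -- the plateau
        by_contra hcon
        rw [not_le] at hcon
        have h1 : M ^ ((KN k : ℝ) - η) ≤
            (N : ℝ) ^ (KN k) * volume.real {a : X k | M ^ (-(1 / 2 : ℝ)) ≤ ‖u N a‖} := by
          rw [← hK]
          refine le_trans ?_ hcon.le
          exact Real.rpow_le_rpow_of_exponent_le hM1 (by linarith)
        have h2 : M ^ (1 + δ') ≤ (N : ℝ) :=
          (Real.rpow_le_rpow_of_exponent_le hM1 (by linarith)).trans hMN
        obtain ⟨N₀, S, hN₀, hN₀N, hSp, hSD, hSv⟩ := hS M N (by linarith) h2 hshort.le h1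
        rw [← hK] at hSv
        have hN₀C : (N₀ : ℝ) ≤ M ^ C₄ := by
          have : (N₀ : ℝ) ≤ N := by exact_mod_cast hN₀N
          exact this.trans hshort.le
        have hN₀1' : (1 : ℝ) ≤ N₀ := le_trans (Real.one_le_rpow hM1 (by linarith)) hN₀
        have hN₀1 : 1 ≤ N₀ := by exact_mod_cast hN₀1'
        have hsub : {w : X k | ∃ (b : X k) (x : ℕ), x < DS S ∧ phi (DS S) x b = w ∧
            Rich S {v : X k | M ^ (-(1 / 2 : ℝ)) / 8 ≤ ‖u N₀ v‖} (M ^ (-σ)) b x} ⊆
            WS k N₀ (M ^ CR') (M ^ (1 + 2 * σ)) := by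
          rintro w ⟨b, x, hx, hw, hr⟩
          rw [← hw]
          exact hE2 M N₀ S b x (by linarith) hN₀ hN₀C hSp hSD hx hr
        have hR1 : 1 ≤ M ^ CR' := Real.one_le_rpow hM1 (by linarith)
        have hRe : (M ^ CR') ^ ε ≤ M ^ (ε * B) := by
          rw [← Real.rpow_mul hM0.le]
          apply Real.rpow_le_rpow_of_exponent_le hM1
          calc CR' * ε ≤ B * ε := mul_le_mul_of_nonneg_right (by linarith) hεpos.le
            _ = ε * B := mul_comm _ _
        have hM'1 : 1 ≤ M ^ (1 + 2 * σ) := Real.one_le_rpow hM1 (by linarith)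
        have hRe2 : (M ^ CR' * M ^ (1 + 2 * σ)) ^ ε ≤ M ^ (ε * B) := by
          rw [← Real.rpow_add hM0, ← Real.rpow_mul hM0.le]
          apply Real.rpow_le_rpow_of_exponent_le hM1
          rw [mul_comm ε B]
          exact mul_le_mul_of_nonneg_right (by linarith) hεpos.le
        have hcond : CM * (M ^ CR' * M ^ (1 + 2 * σ)) ^ ε * M ^ (1 + 2 * σ) ≤ N₀ := by
          have h3 : CM + 1 ≤ M ^ (δ' / 16) := hMb M (by linarith)
          have h4 : (M ^ CR' * M ^ (1 + 2 * σ)) ^ ε ≤ M ^ (δ' / 16) :=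
            hRe2.trans (Real.rpow_le_rpow_of_exponent_le hM1 hεδ)
          have hp : 0 < (M ^ CR' * M ^ (1 + 2 * σ)) ^ ε := by positivity
          calc CM * (M ^ CR' * M ^ (1 + 2 * σ)) ^ ε * M ^ (1 + 2 * σ)
              ≤ M ^ (δ' / 16) * M ^ (δ' / 16) * M ^ (1 + 2 * σ) := by
                apply mul_le_mul_of_nonneg_right _ (by positivity)
                exact mul_le_mul (by linarith) h4 hp.le (by positivity)
            _ = M ^ (δ' / 16 + δ' / 16 + (1 + 2 * σ)) := by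
                rw [Real.rpow_add hM0 (δ' / 16 + δ' / 16), Real.rpow_add hM0 (δ' / 16) (δ' / 16)]
            _ ≤ M ^ (1 + δ' / 2) := Real.rpow_le_rpow_of_exponent_le hM1 (by linarith)
            _ ≤ N₀ := hN₀
        have h5 := hM N₀ (M ^ CR') (M ^ (1 + 2 * σ)) hN₀1 hR1 hM'1 hcond
        have h6 : M ^ (K - σ) ≤ CM * (M ^ CR') ^ ε * (M ^ (1 + 2 * σ)) ^ s :=
          hSv.trans ((mul_le_mul_of_nonneg_left (volR_mono hsub) (by positivity)).trans h5)
        have h7 : CM * (M ^ CR') ^ ε * (M ^ (1 + 2 * σ)) ^ s < M ^ (K - σ) := by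
          have h8 : CM + 1 ≤ M ^ (g / 16) := hMa M (by linarith)
          have h9 : (M ^ CR') ^ ε ≤ M ^ (g / 8) :=
            hRe.trans (Real.rpow_le_rpow_of_exponent_le hM1 hεg)
          have h10 : (M ^ (1 + 2 * σ)) ^ s = M ^ ((1 + 2 * σ) * s) := by
            rw [← Real.rpow_mul hM0.le]
          have hp : 0 < (M ^ CR') ^ ε := by positivity
          have hp2 : 0 < M ^ ((1 + 2 * σ) * s) := by positivity
          have hcs : CM < M ^ (g / 16) := by linarith
          calc CM * (M ^ CR') ^ ε * (M ^ (1 + 2 * σ)) ^ s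
              < M ^ (g / 16) * (M ^ CR') ^ ε * (M ^ (1 + 2 * σ)) ^ s := by
                rw [h10]
                apply mul_lt_mul_of_pos_right _ hp2
                exact mul_lt_mul_of_pos_right hcs hp
            _ ≤ M ^ (g / 16) * M ^ (g / 8) * M ^ ((1 + 2 * σ) * s) := by
                rw [h10]
                apply mul_le_mul_of_nonneg_right _ hp2.le
                exact mul_le_mul_of_nonneg_left h9 (by positivity)
            _ = M ^ (g / 16 + g / 8 + (1 + 2 * σ) * s) := by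
                rw [Real.rpow_add hM0 (g / 16 + g / 8), Real.rpow_add hM0 (g / 16) (g / 8)]
            _ ≤ M ^ (K - σ) := by
                apply Real.rpow_le_rpow_of_exponent_le hM1
                exact final_exp g K s σ hg hσpos.le (le_trans (by norm_num) hK6) hs2.le hσg
        linarith
    calc (N : ℝ) ^ (KN k) * volume.real {a : X k | M ^ (-(1 / 2 : ℝ)) ≤ ‖u N a‖}
        ≤ 1 * M ^ (K - c) := by rw [one_mul]; exact key
      _ ≤ (CW * M₀ ^ c + 1) * M ^ (K - c) :=
          mul_le_mul_of_nonneg_right (by linarith) hMK.le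

end Pool.Agent.H24.LVP
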