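import Pool.Agent.H24.LVP.RES

/-!
# Power saving above the square root barrier: the final statement in elementary terms (helper24)
-/

set_option autoImplicit false

open Finset MeasureTheory

namespace Pool.Agent.H24.LVP

open Pool.Agent.H24.CL Pool.Agent.H24.LV Pool.Agent.H67.CLV

theorem e_real (x : ℝ) : e (x : UnitAddCircle) = Complex.exp (2 * Real.pi * Complex.I * x) := by
  unfold e
  rw [AddCircle.toCircle_apply_mk, Circle.coe_exp]
  congr 1
  push_cast
  ring

/-- the numerators of the reduced fractions with denominator `q` -/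
def reduced (k q : ℕ) : Finset (Fin k → ℕ) :=
  (Fintype.piFinset fun _ : Fin k => range q).filter fun a =>
    Nat.gcd q (Finset.univ.gcd a) = 1

theorem reduced_eq (k q : ℕ) : reduced k q = Red k q := by
  classical
  unfold reduced Red
  apply Finset.filter_congr
  intro a _
  constructor
  · intro h d hd hda
    have h1 : d ∣ Finset.univ.gcd a := Finset.dvd_gcd fun i _ => hda i
    have h2 : d ∣ Nat.gcd q (Finset.univ.gcd a) := Nat.dvd_gcd hd h1
    rw [h] at h2
    exact Nat.dvd_one.1 h2
  · intro h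
    apply h
    · exact Nat.gcd_dvd_left _ _
    · intro i
      exact (Nat.gcd_dvd_right _ _).trans (Finset.gcd_dvd (Finset.mem_univ i))

theorem Sq_eq {k : ℕ} (q : ℕ) (a : Fin k → ℕ) :
    Sq q (fun i => (a i : ℤ)) = (∑ z ∈ range q,
      Complex.exp (2 * Real.pi * Complex.I * ((∑ i : Fin k, a i * z ^ (i.val + 1) : ℕ) : ℂ) / q)) /
        q := by
  unfold Sq
  rw [one_div, inv_mul_eq_div]
  congr 1
  refine Finset.sum_congr rfl fun z _ => ?_
  rw [e_real]
  congr 1
  push_cast
  ring

theorem vI_eq {k : ℕ} (γ : Fin k → ℝ) :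
    vI γ = ∫ x in (0 : ℝ)..1,
      Complex.exp (2 * Real.pi * Complex.I * ((∑ i : Fin k, γ i * x ^ (i.val + 1) : ℝ) : ℂ)) := by
  unfold vI
  simp_rw [e_real]

end Pool.Agent.H24.LVP
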