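import Pool.Agent.H12.LV.ARI
import Pool.Agent.H12.LV.TER
import Pool.Agent.H12.LVP.wWT
import Pool.Agent.H14.LV.QUA
import Pool.Agent.H14.LV.WEM
import Pool.Agent.H17.LV.VAL
import Pool.Agent.H19.LV.DOM
import Pool.Agent.H19.LV.NG
import Pool.Agent.H2.LVE.SMA
import Pool.Agent.H2.LVP.wEQ
import Pool.Agent.H22.LVP.JE
import Pool.Agent.H22.LVP.PC
import Pool.Agent.H22.LVP.SR
import Pool.Agent.H23.LVE.HYP
import Pool.Agent.H23.LVE.SUB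
import Pool.Agent.H24.CL.AllK
import Pool.Agent.H24.CL.Base
import Pool.Agent.H24.LVP.FIN
import Pool.Agent.H24.LVP.RES2
import Pool.Agent.H25.LVP.BDL
import Pool.Agent.H25.LVP.CH
import Pool.Agent.H33.LV.PPA
import Pool.Agent.H33.LVE.BND
import Pool.Agent.H33.LVE.MVB
import Pool.Agent.H33.LVE.PCE
import Pool.Agent.H33.LVE.PIE
import Pool.Agent.H33.LVE.TAI
import Pool.Agent.H33.LVP.wEC
import Pool.Agent.H33.LVP.wPV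
import Pool.Agent.H33.LVP.wRU
import Pool.Agent.H45.LV.A
import Pool.Agent.H45.LV.F
import Pool.Agent.H45.LV.G
import Pool.Agent.H46.LV.DSR
import Pool.Agent.H47.LV.DIV
import Pool.Agent.H47.LV.MJS
import Pool.Agent.H5.LVP.wDD
import Pool.Agent.H5.LVP.wDW
import Pool.Agent.H50.LV.Targets
import Pool.Agent.H50.LVE.LOC
import Pool.Agent.H50.LVE.ME
import Pool.Agent.H51.LV.AP
import Pool.Agent.H51.LV.MWI
import Pool.Agent.H51.LVE.FUN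
import Pool.Agent.H51.LVE.PAR
import Pool.Agent.H56.LVP.CV
import Pool.Agent.H56.LVP.LO
import Pool.Agent.H56.LVP.SC
import Pool.Agent.H56.LVP.ST
import Pool.Agent.H57.LVE.AMD
import Pool.Agent.H57.LVE.ARC
import Pool.Agent.H57.LVE.GIS
import Pool.Agent.H57.LVE.QSM
import Pool.Agent.H57.LVP.wDI
import Pool.Agent.H57.LVP.wGE
import Pool.Agent.H57.LVP.wTF
import Pool.Agent.H57.LVP.wVH
import Pool.Agent.H57.LVP.wWD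
import Pool.Agent.H60.LVE.DEC
import Pool.Agent.H60.LVE.LAG
import Pool.Agent.H60.LVE.MKV
import Pool.Agent.H60.LVE.SMB
import Pool.Agent.H60.LVP.LM
import Pool.Agent.H60.LVP.NL
import Pool.Agent.H60.LVP.PL
import Pool.Agent.H60.LVP.RT
import Pool.Agent.H60.LVP.TR
import Pool.Agent.H61.LVP.AS
import Pool.Agent.H61.LVP.SPL
import Pool.Agent.H61.LVP.wWE
import Pool.Agent.H63.LVP.LC
import Pool.Agent.H69.LVP.CP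
import Pool.Agent.H69.LVP.LG
import Pool.Agent.H69.LVP.LY
import Pool.Agent.H7.LVE.BXM
import Pool.Agent.H7.LVE.CEL
import Pool.Agent.H7.LVE.COV
import Pool.Agent.H7.LVP.MJ
import Pool.Agent.H70.LV.ARP
import Pool.Agent.H70.LV.FLT
import Pool.Agent.H73.LV.MUL
import Pool.Agent.H73.LV.TRE
import Pool.Agent.H73.LVP.wEA
import Pool.Agent.H73.LVP.wVL
import Pool.Agent.H79.LVP.GAL
import Pool.Agent.H8.LV.CO
import Pool.Agent.H8.LV.CT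
import Pool.Agent.H8.LV.PP
import Pool.Agent.H80.LVP.wDL
import Pool.Agent.H82.LVP.wER
import Pool.Agent.H84.LVP.JP
import Pool.Agent.H84.LVP.RI
import Pool.Agent.H84.LVP.RM
import Pool.Agent.H84.LVP.WEB
import Pool.Agent.H84.LVP.WEL
import Pool.Agent.H84.LVP.WWI
import Pool.Agent.H84.LVP.WWR
import Pool.Agent.H85.LV.FP

/-!
# Power saving above the square root barrier: the closed theorems (helper24)
-/

set_option autoImplicit false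

namespace Pool.Agent.H24.LVP

theorem aPP : Pool.Agent.H24.LV.L_PP :=
  Pool.Agent.H8.LV.pf_PP

theorem aWT : Pool.Agent.H24.LV.L_WT :=
  Pool.Agent.H45.LV.WT_of Pool.Agent.H24.CL.kIT Pool.Agent.H24.CL.rEX

theorem aAI : Pool.Agent.H24.LV.L_AI :=
  Pool.Agent.H45.LV.pf_AI

theorem aPT : Pool.Agent.H24.LV.L_PT :=
  Pool.Agent.H45.LV.PT_of Pool.Agent.H24.CL.rPF Pool.Agent.H24.CL.rMP Pool.Agent.H24.CL.rEX Pool.Agent.H24.LVP.aWT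

theorem aGM : Pool.Agent.H24.LV.L_GM :=
  Pool.Agent.H45.LV.GM_of Pool.Agent.H24.CL.rTO Pool.Agent.H24.CL.rMP

theorem aCO : Pool.Agent.H24.LV.L_CO :=
  Pool.Agent.H8.LV.pf_CO

theorem aGAL : Pool.Agent.H24.LV.L_GA :=
  Pool.Agent.H79.LVP.pf_GAL

theorem aCT : Pool.Agent.H24.LV.L_CT :=
  Pool.Agent.H8.LV.pf_CT Pool.Agent.H24.LVP.aCO

theorem aRM : Pool.Agent.H24.LV.L_RM :=
  Pool.Agent.H84.LVP.pf_RM Pool.Agent.H24.CL.rMP Pool.Agent.H24.CL.rTO Pool.Agent.H24.LVP.aCO Pool.Agent.H24.LVP.aAI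

theorem aAP : Pool.Agent.H24.LV.M_AP :=
  Pool.Agent.H51.LV.AP.pf_AP

theorem awGE : Pool.Agent.H31.LV.W_GE :=
  Pool.Agent.H57.LVP.pf_wGE

theorem aPC : Pool.Agent.H24.LV.L_PC :=
  Pool.Agent.H22.LVP.pf_PC Pool.Agent.H24.LVP.aCO

theorem awDI : Pool.Agent.H31.LV.W_DI :=
  Pool.Agent.H57.LVP.pf_wDI

theorem aMJ : Pool.Agent.H24.LV.M_MJ :=
  Pool.Agent.H7.LVP.pf_MJ Pool.Agent.H24.LVP.aAP

theorem awDD : Pool.Agent.H31.LV.W_DD :=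
  Pool.Agent.H5.LVP.pf_wDD

theorem awWD : Pool.Agent.H31.LV.W_WD :=
  Pool.Agent.H57.LVP.pf_wWD

theorem awEL : Pool.Agent.H31.LV.W_EL :=
  Pool.Agent.H84.LVP.pf_wEL

theorem awPV : Pool.Agent.H31.LV.W_PV :=
  Pool.Agent.H33.LVP.pf_wPV

theorem awVH : Pool.Agent.H31.LV.W_VH :=
  Pool.Agent.H57.LVP.pf_wVH

theorem awER : Pool.Agent.H31.LV.W_ER :=
  Pool.Agent.H82.LVP.pf_wER Pool.Agent.H24.LVP.awPV

theorem awRU : Pool.Agent.H31.LV.W_RU :=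
  Pool.Agent.H33.LVP.pf_wRU

theorem awTF : Pool.Agent.H31.LV.W_TF :=
  Pool.Agent.H57.LVP.pf_wTF

theorem awEA : Pool.Agent.H31.LV.W_EA :=
  Pool.Agent.H73.LVP.pf_wEA

theorem awEB : Pool.Agent.H31.LV.W_EB :=
  Pool.Agent.H84.LVP.pf_wEB

theorem awVL : Pool.Agent.H31.LV.W_VL :=
  Pool.Agent.H73.LVP.pf_wVL

theorem awEC : Pool.Agent.H31.LV.W_EC :=
  Pool.Agent.H33.LVP.pf_wEC

theorem awWR : Pool.Agent.H31.LV.W_WR :=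
  Pool.Agent.H84.LVP.pf_wWR

theorem eLAG : Pool.Agent.H50.LV.T_LAG :=
  Pool.Agent.H60.LVE.pf_LAG

theorem eCEL : Pool.Agent.H50.LV.T_CEL :=
  Pool.Agent.H7.LVE.pf_CEL

theorem eMVB : Pool.Agent.H50.LV.T_MVB :=
  Pool.Agent.H33.LVE.pf_MVB

theorem eSUB : Pool.Agent.H50.LV.T_SUB :=
  Pool.Agent.H23.LVE.pf_SUB

theorem eGIS : Pool.Agent.H50.LV.T_GIS :=
  Pool.Agent.H57.LVE.pf_GIS

theorem eCIN : Pool.Agent.H50.LV.T_CIN :=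
  Pool.Agent.H60.LVE.pf_CIN

theorem eAMD : Pool.Agent.H50.LV.T_AMD :=
  Pool.Agent.H57.LVE.pf_AMD

theorem eFUN : Pool.Agent.H50.LV.T_FUN :=
  Pool.Agent.H51.LVE.pf_FUN

theorem eMKV : Pool.Agent.H50.LV.T_MKV :=
  Pool.Agent.H60.LVE.pf_MKV

theorem eSMB : Pool.Agent.H50.LV.T_SMB :=
  Pool.Agent.H60.LVE.pf_SMB

theorem eSMA : Pool.Agent.H50.LV.T_SMA :=
  Pool.Agent.H2.LVE.pf_SMA

theorem eCOV : Pool.Agent.H50.LV.T_COV :=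
  Pool.Agent.H7.LVE.pf_COV Pool.Agent.H24.LVP.eAMD

theorem eQSM : Pool.Agent.H50.LV.T_QSM :=
  Pool.Agent.H57.LVE.pf_QSM

theorem eARC : Pool.Agent.H50.LV.T_ARC :=
  Pool.Agent.H57.LVE.pf_ARC

theorem ePAR : Pool.Agent.H50.LV.T_PAR :=
  Pool.Agent.H51.LVE.pf_PAR

theorem eSPL : Pool.Agent.H50.LV.T_SPL :=
  Pool.Agent.H61.LVP.pf_SPL

theorem pDSR : Pool.Agent.H26.LV.T_DSR :=
  Pool.Agent.H46.LV.pf_DSR

theorem pTRE : Pool.Agent.H26.LV.T_TRE :=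
  Pool.Agent.H73.LV.pf_TRE

theorem pDOM : Pool.Agent.H26.LV.T_DOM :=
  Pool.Agent.H19.LV.pf_DOM

theorem pMJS : Pool.Agent.H26.LV.T_MJS :=
  Pool.Agent.H47.LV.pf_MJS

theorem pMUL : Pool.Agent.H26.LV.T_MUL :=
  Pool.Agent.H73.LV.pf_MUL

theorem pVAL : Pool.Agent.H26.LV.T_VAL :=
  Pool.Agent.H17.LV.pf_VAL

theorem pDIV : Pool.Agent.H26.LV.T_DIV :=
  Pool.Agent.H47.LV.pf_DIV

theorem pQUA : Pool.Agent.H26.LV.T_QUA :=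
  Pool.Agent.H14.LV.pf_QUA

theorem pWEM : Pool.Agent.H26.LV.T_WEM :=
  Pool.Agent.H14.LV.pf_WEM

theorem aBDL : Pool.Agent.H24.LV.L_BD :=
  Pool.Agent.H25.LVP.pf_BDL Pool.Agent.H24.LVP.aGAL

theorem aCH : Pool.Agent.H24.LV.L_CH :=
  Pool.Agent.H25.LVP.pf_CH Pool.Agent.H24.LVP.aBDL Pool.Agent.H24.LVP.aWT

theorem aJP : Pool.Agent.H24.LV.L_JP :=
  Pool.Agent.H84.LVP.pf_JP Pool.Agent.H24.CL.rTO Pool.Agent.H24.CL.rSH Pool.Agent.H24.LVP.aCO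

theorem aSC : Pool.Agent.H24.LV.L_SC :=
  Pool.Agent.H56.LVP.pf_SC Pool.Agent.H24.LVP.aCO Pool.Agent.H24.LVP.aAI

theorem aNL : Pool.Agent.H24.LV.L_NL :=
  Pool.Agent.H60.LVP.pf_NL Pool.Agent.H24.LVP.aCO

theorem aRT : Pool.Agent.H24.LV.L_RT :=
  Pool.Agent.H60.LVP.pf_RT Pool.Agent.H24.LVP.aWT Pool.Agent.H24.LVP.aCO Pool.Agent.H24.LVP.aAI

theorem aLC : Pool.Agent.H24.LV.L_LC :=
  Pool.Agent.H63.LVP.pf_LC Pool.Agent.H24.LVP.aCO Pool.Agent.H24.LVP.aCT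

theorem aTR : Pool.Agent.H24.LV.L_TR :=
  Pool.Agent.H60.LVP.pf_TR Pool.Agent.H24.LVP.aCO Pool.Agent.H24.LVP.aAI

theorem aCV : Pool.Agent.H24.LV.L_CV :=
  Pool.Agent.H56.LVP.pf_CV Pool.Agent.H24.LVP.aSC Pool.Agent.H24.LVP.aCT Pool.Agent.H24.LVP.aCO

theorem aST : Pool.Agent.H24.LV.L_ST :=
  Pool.Agent.H56.LVP.pf_ST Pool.Agent.H24.LVP.aSC Pool.Agent.H24.LVP.aCT Pool.Agent.H24.LVP.aCO

theorem aLO : Pool.Agent.H24.LV.L_LO :=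
  Pool.Agent.H56.LVP.pf_LO Pool.Agent.H24.LVP.aST

theorem aPL : Pool.Agent.H24.LV.L_PL :=
  Pool.Agent.H60.LVP.pf_PL Pool.Agent.H24.LVP.aPC Pool.Agent.H24.LVP.aCO Pool.Agent.H24.LVP.aAI

theorem awEQ : Pool.Agent.H31.LV.W_EQ :=
  Pool.Agent.H2.LVP.pf_wEQ Pool.Agent.H24.LVP.awEA Pool.Agent.H24.LVP.awEL Pool.Agent.H24.LVP.awEB Pool.Agent.H24.LVP.awEC Pool.Agent.H24.LVP.awPV

theorem awWT : Pool.Agent.H31.LV.W_WT :=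
  Pool.Agent.H12.LVP.pf_wWT Pool.Agent.H24.LVP.awGE Pool.Agent.H24.LVP.awDI Pool.Agent.H24.LVP.awVL

theorem awWI : Pool.Agent.H31.LV.W_WI :=
  Pool.Agent.H84.LVP.pf_wWI Pool.Agent.H24.LVP.awWT Pool.Agent.H24.LVP.awWR Pool.Agent.H24.LVP.awWD

theorem ePCE : Pool.Agent.H50.LV.T_PCE :=
  Pool.Agent.H33.LVE.pf_PCE Pool.Agent.H24.LVP.eSPL Pool.Agent.H24.LVP.eMVB

theorem ePIE : Pool.Agent.H50.LV.T_PIE :=
  Pool.Agent.H33.LVE.pf_PIE Pool.Agent.H24.LVP.ePAR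

theorem eHYP : Pool.Agent.H50.LV.T_HYP :=
  Pool.Agent.H23.LVE.pf_HYP Pool.Agent.H24.LVP.ePCE Pool.Agent.H24.LVP.ePIE Pool.Agent.H24.LVP.eSUB

theorem eBXM : Pool.Agent.H50.LV.T_BXM :=
  Pool.Agent.H7.LVE.pf_BXM Pool.Agent.H24.LVP.eARC

theorem eCSM : Pool.Agent.H50.LV.T_CSM :=
  Pool.Agent.H60.LVE.pf_CSM Pool.Agent.H24.LVP.eQSM

theorem eBND : Pool.Agent.H50.LV.T_BND :=
  Pool.Agent.H33.LVE.pf_BND Pool.Agent.H24.LVP.eSMA Pool.Agent.H24.LVP.eSMB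

theorem eDEC : Pool.Agent.H50.LV.T_DEC :=
  Pool.Agent.H60.LVE.pf_DEC Pool.Agent.H24.LVP.eSPL Pool.Agent.H24.LVP.eLAG Pool.Agent.H24.LVP.ePIE Pool.Agent.H24.LVP.eSUB

theorem pNGB : Pool.Agent.H26.LV.T_NGB :=
  Pool.Agent.H19.LV.pf_NGB Pool.Agent.H24.LVP.pDOM Pool.Agent.H24.LVP.pVAL

theorem pNGA : Pool.Agent.H26.LV.T_NGA :=
  Pool.Agent.H19.LV.pf_NGA Pool.Agent.H24.LVP.pDOM Pool.Agent.H24.LVP.pVAL

theorem pTER : Pool.Agent.H26.LV.T_TER :=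
  Pool.Agent.H12.LV.pf_TER Pool.Agent.H24.LVP.pQUA Pool.Agent.H24.LVP.pWEM Pool.Agent.H24.LVP.pDSR Pool.Agent.H24.LVP.pVAL

theorem pPPB : Pool.Agent.H26.LV.T_PPB :=
  Pool.Agent.H33.LV.pf_PPB Pool.Agent.H24.LVP.pTER Pool.Agent.H24.LVP.pNGB Pool.Agent.H24.LVP.pVAL Pool.Agent.H24.LVP.pTRE Pool.Agent.H24.LVP.pMJS

theorem aFB : Pool.Agent.H24.LV.L_FB :=
  Pool.Agent.H45.LV.FB_of Pool.Agent.H24.CL.kGC Pool.Agent.H24.CL.rEX Pool.Agent.H24.LVP.aCH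

theorem aFP : Pool.Agent.H24.LV.L_FP :=
  Pool.Agent.H85.LV.pf_FP Pool.Agent.H24.LVP.aWT Pool.Agent.H24.LVP.aCH Pool.Agent.H24.LVP.aFB Pool.Agent.H24.LVP.aJP Pool.Agent.H24.LVP.aRM

theorem aJE : Pool.Agent.H24.LV.L_JE :=
  Pool.Agent.H22.LVP.pf_JE Pool.Agent.H24.LVP.aST

theorem aLM : Pool.Agent.H24.LV.L_LM :=
  Pool.Agent.H60.LVP.pf_LM Pool.Agent.H24.LVP.aPL Pool.Agent.H24.LVP.aLC Pool.Agent.H24.LVP.aCO Pool.Agent.H24.LVP.aAI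

theorem aMWI : Pool.Agent.H24.LV.M_WI :=
  Pool.Agent.H51.LV.MWI.pf_MWI Pool.Agent.H24.LVP.awWI

theorem awDL : Pool.Agent.H31.LV.W_DL :=
  Pool.Agent.H80.LVP.pf_wDL Pool.Agent.H24.LVP.awWI Pool.Agent.H24.LVP.awVH Pool.Agent.H24.LVP.awDD

theorem awWE : Pool.Agent.H24.LV.E_WE :=
  Pool.Agent.H61.LVP.pf_wWE Pool.Agent.H24.LVP.aCO Pool.Agent.H24.LVP.awDL Pool.Agent.H24.LVP.awTF Pool.Agent.H24.LVP.awEQ Pool.Agent.H24.LVP.awRU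

theorem awDW : Pool.Agent.H24.LV.E_DW :=
  Pool.Agent.H5.LVP.pf_wDW Pool.Agent.H24.LVP.awWI Pool.Agent.H24.LVP.awER Pool.Agent.H24.LVP.awRU

theorem eTAI : Pool.Agent.H50.LV.T_TAI :=
  Pool.Agent.H33.LVE.pf_TAI Pool.Agent.H24.LVP.eSPL Pool.Agent.H24.LVP.ePIE Pool.Agent.H24.LVP.eSUB

theorem eRMC : Pool.Agent.H50.LV.T_RMC :=
  Pool.Agent.H60.LVE.pf_RMC Pool.Agent.H24.LVP.eDEC Pool.Agent.H24.LVP.eHYP Pool.Agent.H24.LVP.eTAI Pool.Agent.H24.LVP.eCEL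

theorem pFLT : Pool.Agent.H26.LV.T_FLT :=
  Pool.Agent.H70.LV.pf_FLT Pool.Agent.H24.LVP.pTER Pool.Agent.H24.LVP.pVAL

theorem pPPA : Pool.Agent.H26.LV.T_PPA :=
  Pool.Agent.H33.LV.pf_PPA Pool.Agent.H24.LVP.pTER Pool.Agent.H24.LVP.pFLT Pool.Agent.H24.LVP.pNGA Pool.Agent.H24.LVP.pVAL Pool.Agent.H24.LVP.pTRE Pool.Agent.H24.LVP.pMJS

theorem aRI : Pool.Agent.H24.LV.L_RI :=
  Pool.Agent.H84.LVP.pf_RI Pool.Agent.H24.CL.rMP Pool.Agent.H24.LVP.aLM Pool.Agent.H24.LVP.aNL Pool.Agent.H24.LVP.aTR Pool.Agent.H24.LVP.aCO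

theorem aSR : Pool.Agent.H24.LV.L_SR :=
  Pool.Agent.H22.LVP.pf_SR Pool.Agent.H24.LVP.aWT Pool.Agent.H24.LVP.aFB Pool.Agent.H24.LVP.aFP Pool.Agent.H24.LVP.aRT Pool.Agent.H24.LVP.aGM Pool.Agent.H24.LVP.aPP Pool.Agent.H24.LVP.aPT Pool.Agent.H24.LVP.aRI Pool.Agent.H24.LVP.aJE Pool.Agent.H24.LVP.aLO Pool.Agent.H24.LVP.aCV

theorem pARP : Pool.Agent.H26.LV.T_ARP :=
  Pool.Agent.H70.LV.pf_ARP Pool.Agent.H24.LVP.pPPA Pool.Agent.H24.LVP.pPPB Pool.Agent.H24.LVP.pMUL Pool.Agent.H24.LVP.pDIV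

theorem pARI : Pool.Agent.H26.LV.T_ARI :=
  Pool.Agent.H12.LV.pf_ARI Pool.Agent.H24.LVP.pARP

theorem eLOC : Pool.Agent.H50.LV.T_LOC :=
  Pool.Agent.H50.LVE.pf_LOC Pool.Agent.H24.LVP.eRMC Pool.Agent.H24.LVP.eGIS Pool.Agent.H24.LVP.eFUN Pool.Agent.H24.LVP.eBND Pool.Agent.H24.LVP.eMKV Pool.Agent.H24.LVP.eCIN Pool.Agent.H24.LVP.pARI

theorem eME : Pool.Agent.H50.LV.T_ME :=
  Pool.Agent.H50.LVE.pf_ME Pool.Agent.H24.LVP.eLOC Pool.Agent.H24.LVP.eQSM Pool.Agent.H24.LVP.eCSM Pool.Agent.H24.LVP.eCOV Pool.Agent.H24.LVP.eBXM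

theorem aME : Pool.Agent.H24.LV.E_ME :=
  fun k hk s ε h1 _ h2 => Pool.Agent.H24.LVP.eME k hk s ε h1 h2

theorem aFIN : Pool.Agent.H24.LV.E_FI :=
  Pool.Agent.H24.LVP.pf_FIN Pool.Agent.H24.LVP.aWT Pool.Agent.H24.LVP.aSR Pool.Agent.H24.LVP.awWE Pool.Agent.H24.LVP.awDW Pool.Agent.H24.LVP.aME

theorem aLY : Pool.Agent.H24.LV.M_LY :=
  Pool.Agent.H69.LVP.pf_LY Pool.Agent.H24.LVP.aFIN

theorem aCP : Pool.Agent.H24.LV.M_CP :=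
  Pool.Agent.H69.LVP.pf_CP Pool.Agent.H24.LVP.aLY Pool.Agent.H24.LVP.aMWI Pool.Agent.H24.LVP.aMJ

theorem aLG : Pool.Agent.H24.LV.M_LG :=
  Pool.Agent.H69.LVP.pf_LG Pool.Agent.H24.LVP.aWT Pool.Agent.H24.LVP.aLY

theorem aAS : Pool.Agent.H24.LV.M_AS :=
  Pool.Agent.H61.LVP.pf_AS Pool.Agent.H24.LVP.aCP

end Pool.Agent.H24.LVP
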