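import Pool.Agent.H24.LV.TargetsM
import Pool.Agent.H24.CLK.WT

/-!
# Power saving above the square root barrier: the final statement (helper24)
-/

set_option autoImplicit false

open Finset MeasureTheory

namespace Pool.Agent.H24.LVP

open Pool.Agent.H24.CL Pool.Agent.H24.LV Pool.Agent.H67.CLV Pool.Agent.H24.CLK

theorem KN_dbl (k : ℕ) : 2 * KN k = k * (k + 1) := by
  unfold KN
  exact Nat.mul_div_cancel' (Nat.even_mul_succ_self k).two_dvd

/-- the moment over a level set is the same for `1 ≤ n ≤ N` and `0 ≤ n < N` -/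
theorem level_int (hPF : T_PF) (hMP : T_MP) {k : ℕ} (N m : ℕ) (t : ℝ) :
    ∫ a in {a : X k | t ≤ ‖f1 N a‖}, ‖f1 N a‖ ^ m = ∫ a in {a : X k | t ≤ ‖f N a‖}, ‖f N a‖ ^ m := by
  obtain ⟨hc, _, hm⟩ := hMP k 1 1 le_rfl
  have h2 : MeasurableSet {a : X k | t ≤ ‖f N a‖} :=
    measurableSet_le measurable_const (f_cont' N).norm.measurable
  obtain ⟨F, hFd⟩ : ∃ F : X k → ℝ, F = ({a : X k | t ≤ ‖f N a‖}).indicator
    (fun a => ‖f N a‖ ^ m) := ⟨_, rfl⟩
  have hF : Measurable F := by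
    rw [hFd]
    exact ((f_cont' N).norm.measurable.pow_const m).indicator h2
  have h5 : {a : X k | t ≤ ‖f1 N a‖} = (phi 1 1 : X k → X k) ⁻¹' {a : X k | t ≤ ‖f N a‖} := by
    ext a
    simp only [Set.mem_ofPred_eq, Set.mem_preimage]
    rw [f1_norm hPF]
  have h3 : MeasurableSet {a : X k | t ≤ ‖f1 N a‖} := by
    rw [h5]
    exact hc.measurable h2
  have h4 : ∫ a, F (phi 1 1 a) = ∫ a, F a := by
    rw [← integral_map hm.measurable.aemeasurable hF.aestronglyMeasurable, hm.map_eq]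
  have h6 : ∀ a : X k, ({a : X k | t ≤ ‖f1 N a‖}).indicator (fun a => ‖f1 N a‖ ^ m) a =
      F (phi 1 1 a) := by
    intro a
    rw [hFd, h5]
    simp only [Set.indicator, Set.mem_preimage]
    split_ifs
    · rw [f1_norm hPF]
    · rfl
  rw [← integral_indicator h3, ← integral_indicator h2, ← hFd, ← h4]
  exact integral_congr_ae (Filter.Eventually.of_forall h6)

/-- the final statement in the notation of the library -/
theorem final (hPF : T_PF) (hMP : T_MP) (hJI : T_JI) (hLY : M_LY) (hAS : M_AS) (hLG : M_LG) :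
    ∀ k : ℕ, 3 ≤ k →
    Summable (fun q : ℕ => st k (q + 1)) ∧
    Integrable (fun γ : Fin k → ℝ => ‖vI γ‖ ^ (k * (k + 1))) ∧
    (∀ δ : ℝ, 0 < δ → δ < 1 / 2 → ∃ c C : ℝ, 0 < c ∧ ∀ N : ℕ, 1 ≤ N →
      (∀ t : ℝ, (N : ℝ) ^ (1 / 2 + δ) ≤ t →
        (volume : Measure (X k)).real {a : X k | t ≤ ‖f1 N a‖} * t ^ (k * (k + 1)) ≤
          C * (N : ℝ) ^ (k * (k + 1) / 2) * (t / N) ^ c) ∧
      |(∫ a in {a : X k | (N : ℝ) ^ (1 / 2 + δ) ≤ ‖f1 N a‖}, ‖f1 N a‖ ^ (k * (k + 1))) -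
        (∑' q : ℕ, st k (q + 1)) * (∫ γ : Fin k → ℝ, ‖vI γ‖ ^ (k * (k + 1))) *
          (N : ℝ) ^ (k * (k + 1) / 2)| ≤ C * (N : ℝ) ^ ((k * (k + 1) / 2 : ℕ) - c)) ∧
    ∀ ε : ℝ, 0 < ε → ∃ C : ℝ, ∀ N : ℕ, 1 ≤ N →
      ((Pool.Agent.H22.VM.sols (k * (k + 1) / 2) k N).card : ℝ) ≤
        (ε * Real.log N + C) * (N : ℝ) ^ (k * (k + 1) / 2) := by
  intro k hk
  have hd := KN_dbl k
  have hKd : k * (k + 1) / 2 = KN k := rfl
  obtain ⟨hs, hi, has⟩ := hAS k hk
  rw [hd] at hi has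
  refine ⟨hs, hi, ?_, ?_⟩
  · intro δ hδ hδ2
    obtain ⟨c₁, C₁, hc₁, h1⟩ := hLY k hk δ hδ
    obtain ⟨c₂, C₂, hc₂, h2⟩ := has δ hδ hδ2
    refine ⟨min c₁ c₂, max (max C₁ C₂) 0, lt_min hc₁ hc₂, ?_⟩
    intro N hN
    have hN0 : (0 : ℝ) < N := by exact_mod_cast hN
    have hN1 : (1 : ℝ) ≤ N := by exact_mod_cast hN
    have hC0 : 0 ≤ max (max C₁ C₂) 0 := le_max_right _ _
    refine ⟨?_, ?_⟩
    · intro t ht
      have ht0 : 0 < t := lt_of_lt_of_le (Real.rpow_pos_of_pos hN0 _) ht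
      rw [level_eq hPF hMP]
      rcases le_or_gt t N with htN | htN
      · have h3 := (h1 N t hN ht).1
        rw [hd] at h3
        refine h3.trans ?_
        rw [hKd]
        have hle : t / N ≤ 1 := (div_le_one hN0).2 htN
        have h0 : 0 < t / N := by positivity
        have h4 : (t / N) ^ c₁ ≤ (t / N) ^ (min c₁ c₂) :=
          Real.rpow_le_rpow_of_exponent_ge h0 hle (min_le_left _ _)
        have h5 : C₁ ≤ max (max C₁ C₂) 0 := (le_max_left _ _).trans (le_max_left _ _)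
        have h6 : 0 ≤ (t / N) ^ c₁ := by positivity
        calc C₁ * (N : ℝ) ^ KN k * (t / N) ^ c₁
            ≤ max (max C₁ C₂) 0 * (N : ℝ) ^ KN k * (t / N) ^ c₁ := by
              apply mul_le_mul_of_nonneg_right _ h6
              exact mul_le_mul_of_nonneg_right h5 (by positivity)
          _ ≤ max (max C₁ C₂) 0 * (N : ℝ) ^ KN k * (t / N) ^ (min c₁ c₂) :=
              mul_le_mul_of_nonneg_left h4 (by positivity)
      · have hemp : {a : X k | t ≤ ‖f N a‖} = ∅ := by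
          ext a
          simp only [Set.mem_ofPred_eq, Set.mem_empty_iff_false, iff_false, not_le]
          have h3 : ‖f N a‖ ≤ N := by
            unfold f
            refine (norm_sum_le _ _).trans ?_
            simp [e_norm]
          linarith
        rw [hemp, measureReal_empty, zero_mul]
        positivity
    · rw [level_int hPF hMP]
      have h3 := h2 N hN
      rw [hKd]
      have h4 : (N : ℝ) ^ ((KN k : ℝ) - c₂) ≤ (N : ℝ) ^ ((KN k : ℝ) - min c₁ c₂) :=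
        Real.rpow_le_rpow_of_exponent_le hN1 (by linarith [min_le_right c₁ c₂])
      have h5 : C₂ ≤ max (max C₁ C₂) 0 := (le_max_right _ _).trans (le_max_left _ _)
      have h6 : 0 ≤ (N : ℝ) ^ ((KN k : ℝ) - c₂) := by positivity
      have h7 : (N : ℝ) ^ KN k * ((∑' q : ℕ, st k (q + 1)) *
          ∫ γ : Fin k → ℝ, ‖vI γ‖ ^ (k * (k + 1))) =
          (∑' q : ℕ, st k (q + 1)) * (∫ γ : Fin k → ℝ, ‖vI γ‖ ^ (k * (k + 1))) *
            (N : ℝ) ^ KN k := by ring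
      rw [h7] at h3
      refine h3.trans ?_
      calc C₂ * (N : ℝ) ^ ((KN k : ℝ) - c₂)
          ≤ max (max C₁ C₂) 0 * (N : ℝ) ^ ((KN k : ℝ) - c₂) := mul_le_mul_of_nonneg_right h5 h6
        _ ≤ max (max C₁ C₂) 0 * (N : ℝ) ^ ((KN k : ℝ) - min c₁ c₂) :=
            mul_le_mul_of_nonneg_left h4 hC0
  · intro ε hε
    obtain ⟨C, hC⟩ := hLG k hk ε hε
    refine ⟨C, fun N hN => ?_⟩
    rw [hKd, hJI (KN k) k N (by omega) hN]
    exact hC N hN

end Pool.Agent.H24.LVP
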